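import Mathlib

/-!
# No bound on the number of red vertices per sphere in asymmetric 2-colorings

For every function `h : ℕ → ℕ` we build a connected, locally finite, rooted graph with infinite
motion such that every asymmetric 2-coloring of it has, for arbitrarily large `r`, more than `h r`
red vertices on the sphere of radius `r` about the root.

The graph is a tree of parity gadgets.  Let `T r` be the set of nodes of level `r` of a rooted
tree in which every node of level `r` has `m r` children.  Each node `s` carries two vertices
`pair r s 0`, `pair r s 1`, and each node `s` has a gadget, whose vertices `gad r s a` are indexed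
by the vectors `a : Fin (m r) → ZMod 2`; the vertex `gad r s a` is joined to `pair r s (∑ i, a i)`
and to `pair (r+1) (s, i) (a i)` for every child `(s, i)` of `s`.  The root is joined to both
vertices of the top node.
-/

namespace Pool.Agent.Results.MP_f836f4_co.NoSparseAsymmetricColoring

/-- The two colors. -/
inductive Color : Type
  | red : Color
  | blue : Color

/-- Every vertex has finite degree. -/
def IsLocallyFinite {V : Type} (X : SimpleGraph V) : Prop :=
  ∀ v : V, (X.neighborSet v).Finite

/-- Infinite motion: every automorphism of `X` other than the identity (that is, every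
automorphism moving some vertex) moves infinitely many vertices. -/
def HasInfiniteMotion {V : Type} (X : SimpleGraph V) : Prop :=
  ∀ φ : X ≃g X, (∃ v : V, φ v ≠ v) → {v : V | φ v ≠ v}.Infinite

/-- A 2-coloring is asymmetric if the identity is the only automorphism of `X` preserving the
color of every vertex. -/
def IsAsymmetric {V : Type} (X : SimpleGraph V) (c : V → Color) : Prop :=
  ∀ φ : X ≃g X, (∀ v : V, c (φ v) = c v) → ∀ v : V, φ v = v

/-- The sphere of radius `r` about the root `v₀`. -/
def sphere {V : Type} (X : SimpleGraph V) (v₀ : V) (r : ℕ) : Set V :=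
  {v : V | X.dist v₀ v = r}

section Construction

variable (m : ℕ → ℕ)

/-- Nodes of level `r` of the tree with branching numbers `m`. -/
def T : ℕ → Type
  | 0 => Unit
  | r + 1 => T r × Fin (m r)

variable {m}

/-- The top node. -/
def top : T m 0 := ()

/-- The `i`-th child of a node. -/
def child {r : ℕ} (s : T m r) (i : Fin (m r)) : T m (r + 1) := (s, i)

/-- The parent of a node. -/
def parent {r : ℕ} (s : T m (r + 1)) : T m r := Prod.fst s

/-- The index of a node among the children of its parent. -/
def idx {r : ℕ} (s : T m (r + 1)) : Fin (m r) := Prod.snd s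

theorem parent_child {r : ℕ} (s : T m r) (i : Fin (m r)) : parent (child s i) = s := rfl

theorem idx_child {r : ℕ} (s : T m r) (i : Fin (m r)) : idx (child s i) = i := rfl

theorem child_parent_idx {r : ℕ} (s : T m (r + 1)) : child (parent s) (idx s) = s := rfl

theorem child_inj {r : ℕ} {s s' : T m r} {i i' : Fin (m r)} (h : child s i = child s' i') :
    s = s' ∧ i = i' := by
  have h1 := congrArg parent h
  have h2 := congrArg idx h
  rw [parent_child, parent_child] at h1
  rw [idx_child, idx_child] at h2
  exact ⟨h1, h2⟩

variable (m)

/-- Vertices of the graph. -/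
inductive Vtx : Type
  | root : Vtx
  | pair (r : ℕ) (s : T m r) (e : ZMod 2) : Vtx
  | gad (r : ℕ) (s : T m r) (a : Fin (m r) → ZMod 2) : Vtx

variable {m}

open Vtx

/-- Edges, oriented away from the root. -/
inductive E : Vtx m → Vtx m → Prop
  | base (s : T m 0) (e : ZMod 2) : E root (pair 0 s e)
  | up (r : ℕ) (s : T m r) (a : Fin (m r) → ZMod 2) : E (pair r s (∑ i, a i)) (gad r s a)
  | down (r : ℕ) (s : T m r) (a : Fin (m r) → ZMod 2) (i : Fin (m r)) :
      E (gad r s a) (pair (r + 1) (child s i) (a i))

/-- The level of a vertex. -/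
def level : Vtx m → ℕ
  | root => 0
  | pair r _ _ => 2 * r + 1
  | gad r _ _ => 2 * r + 2

theorem level_root : level (root : Vtx m) = 0 := rfl

theorem level_pair (r : ℕ) (s : T m r) (e : ZMod 2) : level (pair r s e) = 2 * r + 1 := rfl

theorem level_gad (r : ℕ) (s : T m r) (a : Fin (m r) → ZMod 2) :
    level (gad r s a) = 2 * r + 2 := rfl

theorem E.level_eq {u v : Vtx m} (h : E u v) : level v = level u + 1 := by
  cases h with
  | base s e => rw [level_root, level_pair]
  | up r s a => rw [level_pair, level_gad]
  | down r s a i => rw [level_pair, level_gad]; ring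

variable (m)

/-- The graph. -/
def X : SimpleGraph (Vtx m) where
  Adj u v := E u v ∨ E v u
  symm := ⟨fun _ _ h => h.symm⟩
  loopless := ⟨fun u h => by
    rcases h with h | h
    · have := h.level_eq
      omega
    · have := h.level_eq
      omega⟩

variable {m}

theorem X_adj {u v : Vtx m} : (X m).Adj u v ↔ E u v ∨ E v u := Iff.rfl

instance finT : ∀ r : ℕ, Finite (T m r)
  | 0 => inferInstanceAs (Finite Unit)
  | r + 1 => by
      have := finT r
      exact inferInstanceAs (Finite (T m r × Fin (m r)))

theorem level_le_finite (k : ℕ) : {v : Vtx m | level v ≤ k}.Finite := by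
  have h1 : (⋃ r ∈ Set.Iic k, Set.range (fun p : T m r × ZMod 2 => pair r p.1 p.2)).Finite :=
    Set.Finite.biUnion (Set.finite_Iic k) (fun r _ => Set.finite_range _)
  have h2 : (⋃ r ∈ Set.Iic k, Set.range (fun p : T m r × (Fin (m r) → ZMod 2) =>
      gad r p.1 p.2)).Finite :=
    Set.Finite.biUnion (Set.finite_Iic k) (fun r _ => Set.finite_range _)
  refine ((Set.finite_singleton (root : Vtx m)).union (h1.union h2)).subset ?_
  intro v hv
  simp only [Set.mem_ofPred_eq] at hv
  cases v with
  | root => left; rfl
  | pair r s e =>
      right; left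
      simp only [level_pair] at hv
      simp only [Set.mem_iUnion, Set.mem_Iic, Set.mem_range]
      exact ⟨r, by omega, (s, e), rfl⟩
  | gad r s a =>
      right; right
      simp only [level_gad] at hv
      simp only [Set.mem_iUnion, Set.mem_Iic, Set.mem_range]
      exact ⟨r, by omega, (s, a), rfl⟩

theorem X_locallyFinite : IsLocallyFinite (X m) := by
  intro v
  refine (level_le_finite (level v + 1)).subset ?_
  intro u hu
  simp only [SimpleGraph.mem_neighborSet, X_adj] at hu
  simp only [Set.mem_ofPred_eq]
  rcases hu with h | h
  · exact h.level_eq.le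
  · have := h.level_eq
    omega

/-- Walks from the root realizing the level. -/
theorem exists_walk_pair : ∀ (r : ℕ) (s : T m r) (e : ZMod 2),
    ∃ p : (X m).Walk root (pair r s e), p.length = 2 * r + 1
  | 0, s, e => ⟨SimpleGraph.Walk.cons (X_adj.2 (Or.inl (E.base s e))) SimpleGraph.Walk.nil, rfl⟩
  | r + 1, s, e => by
      obtain ⟨p, hp⟩ := exists_walk_pair r (parent s) (∑ _i : Fin (m r), e)
      have h1 : (X m).Adj (pair r (parent s) (∑ _i : Fin (m r), e))
          (gad r (parent s) (fun _ => e)) :=
        X_adj.2 (Or.inl (E.up r (parent s) (fun _ => e)))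
      have h2 : (X m).Adj (gad r (parent s) (fun _ => e)) (pair (r + 1) s e) := by
        have h3 := E.down r (parent s) (fun _ => e) (idx s)
        rw [child_parent_idx] at h3
        exact X_adj.2 (Or.inl h3)
      refine ⟨(p.concat h1).concat h2, ?_⟩
      rw [SimpleGraph.Walk.length_concat, SimpleGraph.Walk.length_concat, hp]
      ring

theorem exists_walk (v : Vtx m) : ∃ p : (X m).Walk root v, p.length = level v := by
  cases v with
  | root => exact ⟨SimpleGraph.Walk.nil, rfl⟩
  | pair r s e => exact exists_walk_pair r s e
  | gad r s a =>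
      obtain ⟨p, hp⟩ := exists_walk_pair r s (∑ i, a i)
      refine ⟨p.concat (X_adj.2 (Or.inl (E.up r s a))), ?_⟩
      rw [SimpleGraph.Walk.length_concat, hp, level_gad]

theorem X_connected : (X m).Connected := by
  have : Nonempty (Vtx m) := ⟨root⟩
  refine SimpleGraph.Connected.mk ?_
  intro u v
  obtain ⟨p, _⟩ := exists_walk u
  obtain ⟨q, _⟩ := exists_walk v
  exact ⟨p.reverse.append q⟩

theorem level_le_of_walk {u v : Vtx m} (p : (X m).Walk u v) : level v ≤ level u + p.length := by
  induction p with
  | nil => simp
  | cons h p ih =>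
      rw [X_adj] at h
      simp only [SimpleGraph.Walk.length_cons]
      rcases h with h | h <;>
      · have := h.level_eq
        omega

theorem dist_root (v : Vtx m) : (X m).dist root v = level v := by
  apply le_antisymm
  · obtain ⟨p, hp⟩ := exists_walk v
    rw [← hp]
    exact SimpleGraph.dist_le p
  · obtain ⟨p, hp⟩ := (X_connected (m := m)).exists_walk_length_eq_dist root v
    have := level_le_of_walk p
    rw [hp] at this
    simpa [level] using this

/-- If all branching numbers are positive, the graph has infinite motion. -/
theorem X_infiniteMotion (hm : ∀ r, 0 < m r) : HasInfiniteMotion (X m) := by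
  intro φ hφ hfin
  -- beyond some level every vertex is fixed
  obtain ⟨N, hN⟩ : ∃ N, ∀ v, N ≤ level v → φ v = v := by
    obtain ⟨N, hN⟩ := (hfin.image level).bddAbove
    refine ⟨N + 1, fun v hv => ?_⟩
    by_contra hne
    have : level v ≤ N := hN ⟨v, hne, rfl⟩
    omega
  -- downward induction
  have key : ∀ k, (∀ v, k + 1 ≤ level v → φ v = v) → ∀ v, k ≤ level v → φ v = v := by
    intro k hk v hv
    rcases Nat.lt_or_ge k (level v) with hlt | hge
    · exact hk v hlt
    have hlev : level v = k := le_antisymm hge hv
    -- the image of `v` has level at most `k`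
    have himg : ¬ k + 1 ≤ level (φ v) := by
      intro hcon
      have h1 := hk (φ v) hcon
      have h2 : φ v = v := φ.injective h1
      rw [h2, hlev] at hcon
      omega
    -- images of edges to fixed vertices
    have hadj : ∀ w, E v w → φ w = w ∧ (X m).Adj (φ v) w := by
      intro w hw
      have h1 : φ w = w := hk w (by have := hw.level_eq; omega)
      refine ⟨h1, ?_⟩
      have h2 : (X m).Adj (φ v) (φ w) := φ.map_rel_iff.2 (X_adj.2 (Or.inl hw))
      rwa [h1] at h2
    cases v with
    | root =>
        have h1 := (hadj _ (E.base top 0)).2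
        rw [X_adj] at h1
        generalize hw : φ root = w at h1 himg
        simp only [level_root] at hlev
        rcases h1 with h1 | h1
        · cases h1
          rfl
        · exfalso
          have := h1.level_eq
          simp only [level_pair] at this
          omega
    | pair r s e =>
        obtain ⟨i₀⟩ : Nonempty (Fin (m r)) := ⟨⟨0, hm r⟩⟩
        have hsum : ∑ i, (fun i : Fin (m r) => if i = i₀ then e else 0) i = e := by
          simp
        have hE : E (pair r s e) (gad r s (fun i : Fin (m r) => if i = i₀ then e else 0)) := by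
          have := E.up r s (fun i : Fin (m r) => if i = i₀ then e else 0)
          rwa [hsum] at this
        have h1 := (hadj _ hE).2
        rw [X_adj] at h1
        generalize hw : φ (pair r s e) = w at h1 himg
        simp only [level_pair] at hlev
        rcases h1 with h1 | h1
        · cases h1
          simp
        · exfalso
          have := h1.level_eq
          simp only [level_gad] at this
          omega
    | gad r s a =>
        have h1 : ∀ i, (X m).Adj (φ (gad r s a)) (pair (r + 1) (child s i) (a i)) :=
          fun i => (hadj _ (E.down r s a i)).2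
        generalize hw : φ (gad r s a) = w at h1 himg
        simp only [level_gad] at hlev
        have h2 : ∀ i, E w (pair (r + 1) (child s i) (a i)) := by
          intro i
          rcases X_adj.1 (h1 i) with h | h
          · exact h
          · exfalso
            have := h.level_eq
            simp only [level_pair] at this
            omega
        have h3 : ∀ i, ∃ b, w = gad r s b ∧ b i = a i := by
          intro i
          have h4 := h2 i
          generalize hq : pair (r + 1) (child s i) (a i) = q at h4
          cases h4 with
          | base s' e' => simp at hq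
          | up r' s' a' => simp at hq
          | down r' s' b i' =>
              simp only [pair.injEq, Nat.add_right_cancel_iff] at hq
              obtain ⟨hr, hs, he⟩ := hq
              subst hr
              have h5 := child_inj (eq_of_heq hs)
              obtain ⟨h6, h7⟩ := h5
              subst h6
              subst h7
              exact ⟨b, rfl, he.symm⟩
        obtain ⟨b, hb, -⟩ := h3 ⟨0, hm r⟩
        rw [hb]
        congr 1
        funext i
        obtain ⟨b', hb', hbi⟩ := h3 i
        rw [hb] at hb'
        simp only [gad.injEq, heq_eq_eq, true_and] at hb'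
        rw [hb', hbi]
  have hall : ∀ k, k ≤ N → ∀ v, N - k ≤ level v → φ v = v := by
    intro k
    induction k with
    | zero => intro _ v hv; exact hN v (by simpa using hv)
    | succ k ih =>
        intro hk v hv
        apply key (N - (k + 1)) _ v hv
        intro u hu
        exact ih (by omega) u (by omega)
  obtain ⟨v, hv⟩ := hφ
  exact hv (hall N le_rfl v (by simp))

/-- The flip of the graph given by a parity-consistent family `x`. -/
def flipFun (x : ∀ r, T m r → ZMod 2) : Vtx m → Vtx m
  | root => root
  | pair r s e => pair r s (e + x r s)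
  | gad r s a => gad r s (fun i => a i + x (r + 1) (child s i))

theorem flipFun_flipFun (x : ∀ r, T m r → ZMod 2) (v : Vtx m) :
    flipFun x (flipFun x v) = v := by
  have h2 : ∀ a b : ZMod 2, a + b + b = a := by decide
  cases v with
  | root => rfl
  | pair r s e => simp only [flipFun, h2]
  | gad r s a => simp only [flipFun, h2]

theorem flipFun_E (x : ∀ r, T m r → ZMod 2)
    (hx : ∀ r s, ∑ i, x (r + 1) (child s i) = x r s) {u v : Vtx m} (h : E u v) :
    E (flipFun x u) (flipFun x v) := by
  cases h with
  | base s e => exact E.base s _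
  | up r s a =>
      have h1 := E.up r s (fun i => a i + x (r + 1) (child s i))
      rw [Finset.sum_add_distrib, hx] at h1
      exact h1
  | down r s a i => exact E.down r s (fun i => a i + x (r + 1) (child s i)) i

/-- The flip as an automorphism. -/
def flip (x : ∀ r, T m r → ZMod 2)
    (hx : ∀ r s, ∑ i, x (r + 1) (child s i) = x r s) : X m ≃g X m where
  toFun := flipFun x
  invFun := flipFun x
  left_inv := flipFun_flipFun x
  right_inv := flipFun_flipFun x
  map_rel_iff' := by
    have h : ∀ u v : Vtx m, (X m).Adj u v → (X m).Adj (flipFun x u) (flipFun x v) := by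
      intro u v huv
      rcases X_adj.1 huv with h | h
      · exact X_adj.2 (Or.inl (flipFun_E x hx h))
      · exact X_adj.2 (Or.inr (flipFun_E x hx h))
    intro u v
    constructor
    · intro huv
      have := h _ _ huv
      simpa only [Equiv.coe_fn_mk, flipFun_flipFun] using this
    · exact h u v

open Classical in
/-- The flips: two infinite paths starting at two children `i₁`, `i₂` of the node `t₀` of
level `R`, and continued by the choice function `f`. -/
noncomputable def xfun (R : ℕ) (t₀ : T m R) (i₁ i₂ : Fin (m R)) (f : ∀ r, T m r → Fin (m r)) :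
    ∀ r, T m r → ZMod 2
  | 0, _ => 0
  | r + 1, s =>
      (if idx s = f r (parent s) then xfun R t₀ i₁ i₂ f r (parent s) else 0) +
      (if (⟨r, parent s⟩ : Σ r, T m r) = ⟨R, t₀⟩ ∧
        ((idx s).val = i₁.val ∨ (idx s).val = i₂.val) then 1 else 0)

open Classical in
theorem xfun_child (R : ℕ) (t₀ : T m R) (i₁ i₂ : Fin (m R)) (f : ∀ r, T m r → Fin (m r))
    (r : ℕ) (s : T m r) (i : Fin (m r)) :
    xfun R t₀ i₁ i₂ f (r + 1) (child s i) =
      (if i = f r s then xfun R t₀ i₁ i₂ f r s else 0) +
      (if (⟨r, s⟩ : Σ r, T m r) = ⟨R, t₀⟩ ∧ (i.val = i₁.val ∨ i.val = i₂.val)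
        then 1 else 0) := rfl

theorem xfun_sum (R : ℕ) (t₀ : T m R) (i₁ i₂ : Fin (m R)) (h12 : i₁ ≠ i₂)
    (f : ∀ r, T m r → Fin (m r)) (r : ℕ) (s : T m r) :
    ∑ i, xfun R t₀ i₁ i₂ f (r + 1) (child s i) = xfun R t₀ i₁ i₂ f r s := by
  classical
  simp only [xfun_child]
  rw [Finset.sum_add_distrib]
  have h1 : (∑ i : Fin (m r), if i = f r s then xfun R t₀ i₁ i₂ f r s else 0) =
      xfun R t₀ i₁ i₂ f r s := by
    simp
  rw [h1]
  have h2 : (∑ i : Fin (m r),
      if (⟨r, s⟩ : Σ r, T m r) = ⟨R, t₀⟩ ∧ (i.val = i₁.val ∨ i.val = i₂.val)
        then (1 : ZMod 2) else 0) = 0 := by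
    by_cases hrs : (⟨r, s⟩ : Σ r, T m r) = ⟨R, t₀⟩
    · have hr : r = R := congrArg Sigma.fst hrs
      subst hr
      have h3 : ∀ i : Fin (m r), ((⟨r, s⟩ : Σ r, T m r) = ⟨r, t₀⟩ ∧
          (i.val = i₁.val ∨ i.val = i₂.val)) ↔ (i = i₁ ∨ i = i₂) := by
        intro i
        simp only [hrs, true_and, Fin.val_inj]
      simp only [h3]
      rw [← Finset.sum_filter]
      have h4 : (Finset.univ.filter fun i : Fin (m r) => i = i₁ ∨ i = i₂) = {i₁, i₂} := by
        ext i
        simp
      rw [h4, Finset.sum_pair h12]
      decide
    · simp [hrs]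
  rw [h2, add_zero]

end Construction

open Vtx

/-- Main theorem: for every function `h` there is a connected, locally finite, rooted graph `X`
with infinite motion such that for every asymmetric 2-coloring of `X` there are arbitrarily large
radii `r` for which the sphere of radius `r` about the root contains more than `h r` red
vertices. -/
theorem result (h : ℕ → ℕ) :
    ∃ (V : Type) (X : SimpleGraph V) (v₀ : V),
      X.Connected ∧ IsLocallyFinite X ∧ HasInfiniteMotion X ∧
      ∀ c : V → Color, IsAsymmetric X c →
        ∀ N : ℕ, ∃ r : ℕ, N ≤ r ∧ h r < (sphere X v₀ r ∩ {v : V | c v = Color.red}).ncard := by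
  classical
  -- branching numbers
  let m : ℕ → ℕ := fun r => h (2 * r + 3) + h (2 * r + 4) + 2
  have hm : ∀ r, 0 < m r := fun r => by simp only [m]; omega
  refine ⟨Vtx m, X m, root, X_connected, X_locallyFinite, X_infiniteMotion hm, ?_⟩
  intro c hc N
  by_contra hcon
  push Not at hcon
  -- bad nodes: those carrying a red vertex
  let Bad : ∀ r, T m r → Prop := fun r s =>
    (∃ e, c (pair r s e) = Color.red) ∨ (∃ a, c (gad r s a) = Color.red)
  -- counting bad children
  have hP : ∀ r, N ≤ r → ∀ s : T m r,
      ({i : Fin (m r) | ∃ e, c (pair (r + 1) (child s i) e) = Color.red}).ncard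
        ≤ h (2 * r + 3) := by
    intro r hr s
    refine le_trans ?_ (hcon (2 * r + 3) (by omega))
    have hfin : (sphere (X m) root (2 * r + 3) ∩ {v | c v = Color.red}).Finite := by
      refine (level_le_finite (2 * r + 3)).subset ?_
      rintro v ⟨hv, -⟩
      simp only [sphere, Set.mem_ofPred_eq, dist_root] at hv
      simp only [Set.mem_ofPred_eq, hv, le_refl]
    refine Set.ncard_le_ncard_of_injOn
      (fun i => if hi : ∃ e, c (pair (r + 1) (child s i) e) = Color.red
        then pair (r + 1) (child s i) hi.choose else root) ?_ ?_ hfin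
    · intro i hi
      have hi' : ∃ e, c (pair (r + 1) (child s i) e) = Color.red := hi
      simp only [hi', dif_pos]
      refine ⟨?_, hi'.choose_spec⟩
      simp only [sphere, Set.mem_ofPred_eq, dist_root, level_pair]
      ring
    · intro i hi j hj hij
      have hi' : ∃ e, c (pair (r + 1) (child s i) e) = Color.red := hi
      have hj' : ∃ e, c (pair (r + 1) (child s j) e) = Color.red := hj
      simp only [hi', hj', dif_pos, pair.injEq, heq_eq_eq, true_and] at hij
      exact (child_inj hij.1).2
  have hQ : ∀ r, N ≤ r → ∀ s : T m r,
      ({i : Fin (m r) | ∃ a, c (gad (r + 1) (child s i) a) = Color.red}).ncard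
        ≤ h (2 * r + 4) := by
    intro r hr s
    refine le_trans ?_ (hcon (2 * r + 4) (by omega))
    have hfin : (sphere (X m) root (2 * r + 4) ∩ {v | c v = Color.red}).Finite := by
      refine (level_le_finite (2 * r + 4)).subset ?_
      rintro v ⟨hv, -⟩
      simp only [sphere, Set.mem_ofPred_eq, dist_root] at hv
      simp only [Set.mem_ofPred_eq, hv, le_refl]
    refine Set.ncard_le_ncard_of_injOn
      (fun i => if hi : ∃ a, c (gad (r + 1) (child s i) a) = Color.red
        then gad (r + 1) (child s i) hi.choose else root) ?_ ?_ hfin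
    · intro i hi
      have hi' : ∃ a, c (gad (r + 1) (child s i) a) = Color.red := hi
      simp only [hi', dif_pos]
      refine ⟨?_, hi'.choose_spec⟩
      simp only [sphere, Set.mem_ofPred_eq, dist_root, level_gad]
      ring
    · intro i hi j hj hij
      have hi' : ∃ a, c (gad (r + 1) (child s i) a) = Color.red := hi
      have hj' : ∃ a, c (gad (r + 1) (child s j) a) = Color.red := hj
      simp only [hi', hj', dif_pos, gad.injEq, heq_eq_eq, true_and] at hij
      exact (child_inj hij.1).2
  -- every node of level at least `N` has two distinct good children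
  have hgood : ∀ r, N ≤ r → ∀ s : T m r, ∃ i j : Fin (m r), i ≠ j ∧
      ¬ Bad (r + 1) (child s i) ∧ ¬ Bad (r + 1) (child s j) := by
    intro r hr s
    have hcard : ({i : Fin (m r) | Bad (r + 1) (child s i)}).ncard
        ≤ h (2 * r + 3) + h (2 * r + 4) := by
      refine le_trans (Set.ncard_le_ncard (t :=
        {i : Fin (m r) | ∃ e, c (pair (r + 1) (child s i) e) = Color.red} ∪
        {i : Fin (m r) | ∃ a, c (gad (r + 1) (child s i) a) = Color.red}) ?_
        (Set.toFinite _)) ?_
      · intro i hi
        exact hi
      · exact le_trans (Set.ncard_union_le _ _) (add_le_add (hP r hr s) (hQ r hr s))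
    have hcompl : 1 < ({i : Fin (m r) | Bad (r + 1) (child s i)}ᶜ).ncard := by
      have h1 := Set.ncard_add_ncard_compl {i : Fin (m r) | Bad (r + 1) (child s i)}
      rw [Nat.card_eq_fintype_card, Fintype.card_fin] at h1
      have h2 : m r = h (2 * r + 3) + h (2 * r + 4) + 2 := rfl
      omega
    rw [Set.one_lt_ncard_iff (Set.toFinite _)] at hcompl
    obtain ⟨i, j, hi, hj, hij⟩ := hcompl
    exact ⟨i, j, hij, hi, hj⟩
  -- nodes exist
  have hne : ∀ r, Nonempty (T m r) := by
    intro r
    induction r with
    | zero => exact ⟨()⟩
    | succ r ih =>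
        obtain ⟨s⟩ := ih
        exact ⟨child s ⟨0, hm r⟩⟩
  obtain ⟨s₀⟩ := hne N
  obtain ⟨i₀, -, -, hi₀, -⟩ := hgood N le_rfl s₀
  obtain ⟨i₁, i₂, h12, hi₁, hi₂⟩ := hgood (N + 1) (by omega) (child s₀ i₀)
  -- choice function for good children
  have hf : ∀ r (s : T m r), ∃ i : Fin (m r), N ≤ r → ¬ Bad (r + 1) (child s i) := by
    intro r s
    by_cases hr : N ≤ r
    · obtain ⟨i, -, -, hi, -⟩ := hgood r hr s
      exact ⟨i, fun _ => hi⟩
    · exact ⟨⟨0, hm r⟩, fun h' => absurd h' hr⟩
  choose f hf using hf
  -- the flips
  let x := xfun (N + 1) (child s₀ i₀) i₁ i₂ f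
  have hx : ∀ r s, ∑ i, x (r + 1) (child s i) = x r s :=
    xfun_sum (N + 1) (child s₀ i₀) i₁ i₂ h12 f
  have hxc : ∀ r (s : T m r) (i : Fin (m r)), x (r + 1) (child s i) =
      (if i = f r s then x r s else 0) +
      (if (⟨r, s⟩ : Σ r, T m r) = ⟨N + 1, child s₀ i₀⟩ ∧ (i.val = i₁.val ∨ i.val = i₂.val)
        then 1 else 0) := xfun_child (N + 1) (child s₀ i₀) i₁ i₂ f
  -- one step
  have hstep : ∀ r (s : T m r) (i : Fin (m r)), x (r + 1) (child s i) ≠ 0 →
      (i = f r s ∧ x r s ≠ 0) ∨
      ((⟨r, s⟩ : Σ r, T m r) = ⟨N + 1, child s₀ i₀⟩ ∧ (i.val = i₁.val ∨ i.val = i₂.val)) := by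
    intro r s i hxi
    by_contra hno
    push Not at hno
    apply hxi
    rw [hxc]
    have h1 : (if i = f r s then x r s else 0) = 0 := by
      split_ifs with hi
      · exact hno.1 hi
      · rfl
    have h2 : ¬ ((⟨r, s⟩ : Σ r, T m r) = ⟨N + 1, child s₀ i₀⟩ ∧
        (i.val = i₁.val ∨ i.val = i₂.val)) := by
      rintro ⟨ha, hb⟩
      have := hno.2 ha
      rcases hb with hb | hb
      · exact this.1 hb
      · exact this.2 hb
    rw [h1, if_neg h2, add_zero]
  -- the flipped nodes are good, and of level greater than `N + 1`
  have hinv : ∀ r (s : T m r), x r s ≠ 0 → N + 1 < r ∧ ¬ Bad r s := by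
    intro r
    induction r with
    | zero => intro s hs; exact absurd rfl hs
    | succ r ih =>
        intro s' hs
        obtain ⟨s, i, rfl⟩ : ∃ s i, s' = child s i := ⟨parent s', idx s', rfl⟩
        rcases hstep r s i hs with ⟨hi, hxs⟩ | ⟨hrs, hi⟩
        · obtain ⟨h1, -⟩ := ih s hxs
          refine ⟨by omega, ?_⟩
          have := hf r s (by omega)
          rw [← hi] at this
          exact this
        · have hr : r = N + 1 := congrArg Sigma.fst hrs
          subst hr
          have hs' : s = child s₀ i₀ := by
            simpa using hrs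
          subst hs'
          refine ⟨by omega, ?_⟩
          rcases hi with hi | hi
          · have := Fin.ext hi
            subst this
            exact hi₁
          · have := Fin.ext hi
            subst this
            exact hi₂
  -- the gadgets that are moved carry no red vertex
  have hgadinv : ∀ r (s : T m r) (i : Fin (m r)), x (r + 1) (child s i) ≠ 0 →
      ¬ ∃ a, c (gad r s a) = Color.red := by
    intro r s i hxi hred
    rcases hstep r s i hxi with ⟨-, hxs⟩ | ⟨hrs, -⟩
    · exact (hinv r s hxs).2 (Or.inr hred)
    · have hr : r = N + 1 := congrArg Sigma.fst hrs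
      subst hr
      have hs' : s = child s₀ i₀ := by
        simpa using hrs
      subst hs'
      exact hi₀ (Or.inr hred)
  -- the flip preserves the coloring
  have hnotred : ∀ q : Color, q ≠ Color.red → q = Color.blue := by
    intro q hq
    cases q with
    | red => exact absurd rfl hq
    | blue => rfl
  have hpres : ∀ v, c (flip x hx v) = c v := by
    intro v
    cases v with
    | root => rfl
    | pair r s e =>
        change c (pair r s (e + x r s)) = c (pair r s e)
        by_cases hxs : x r s = 0
        · rw [hxs, add_zero]
        · have hb := (hinv r s hxs).2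
          have h1 : ∀ e', c (pair r s e') = Color.blue := fun e' =>
            hnotred _ (fun hr => hb (Or.inl ⟨e', hr⟩))
          rw [h1, h1]
    | gad r s a =>
        change c (gad r s (fun i => a i + x (r + 1) (child s i))) = c (gad r s a)
        by_cases hxs : ∀ i, x (r + 1) (child s i) = 0
        · congr 2
          funext i
          rw [hxs i, add_zero]
        · push Not at hxs
          obtain ⟨i, hi⟩ := hxs
          have hb := hgadinv r s i hi
          have h1 : ∀ a', c (gad r s a') = Color.blue := fun a' =>
            hnotred _ (fun hr => hb ⟨a', hr⟩)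
          rw [h1, h1]
  -- but it is not the identity
  have hid := hc (flip x hx) hpres (pair (N + 1 + 1) (child (child s₀ i₀) i₁) 0)
  have hx1 : x (N + 1 + 1) (child (child s₀ i₀) i₁) = 1 := by
    rw [hxc]
    have h0 : x (N + 1) (child s₀ i₀) = 0 := by
      by_contra hne0
      exact absurd (hinv _ _ hne0).1 (lt_irrefl _)
    rw [h0]
    simp
  have hid' : pair (N + 1 + 1) (child (child s₀ i₀) i₁)
      ((0 : ZMod 2) + x (N + 1 + 1) (child (child s₀ i₀) i₁)) =
      pair (N + 1 + 1) (child (child s₀ i₀) i₁) 0 := hid
  rw [hx1] at hid'
  simp at hid'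

end Pool.Agent.Results.MP_f836f4_co.NoSparseAsymmetricColoring
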